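import Pool.Agent.H99.MV.UniformlySmoothC01

/-!
The isometric approximation property of `𝔹(X, C[0,1])` for uniformly smooth `X`.

For a uniformly smooth normed space `X` over `ℝ` or `ℂ`, every almost isometric operator
`X → C[0,1]` is close to an isometric one (with a uniform modulus) if and only if `X` is
finite-dimensional or not separable.
-/

open Filter Topology Set

namespace Pool.Agent.Results.MP_4265c1_an.UniformlySmoothC01

open Pool.H99.MV.UniformlySmoothC01

/-- **Main theorem** (answer to Q2). For a uniformly smooth normed space `X` (complete or not)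
over `𝕜 = ℝ` or `ℂ`, `𝔹(X, C[0,1])` has the isometric approximation property if and only if `X`
is finite-dimensional or not separable. -/
theorem result (𝕜 : Type*) [RCLike 𝕜] (X : Type*) [NormedAddCommGroup X] [NormedSpace 𝕜 X]
    (hX : UniformlySmooth 𝕜 X) :
    IAP 𝕜 X C(unitInterval, 𝕜) ↔
      (FiniteDimensional 𝕜 X ∨ ¬ TopologicalSpace.SeparableSpace X) :=
  Pool.H99.MV.UniformlySmoothC01.result 𝕜 X hX

end Pool.Agent.Results.MP_4265c1_an.UniformlySmoothC01
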